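import Pool.Agent.helper51.QS.SpecA

/-!
# Row `qs:TDR`
-/

set_option autoImplicit false

namespace Pool.Agent.QS

open Pool.Agent.PC

universe u

/-- the coefficients of degree `< N` vanish -/
def TDR_O {k : Type u} [Field k] {n : ℕ} (N : ℕ) (f : MvPowerSeries (Fin n) k) : Prop :=
  ∀ α : Fin n →₀ ℕ, α.degree < N → MvPowerSeries.coeff α f = 0

theorem TDR_O_iff {k : Type u} [Field k] {n : ℕ} (N : ℕ) (f : MvPowerSeries (Fin n) k) :
    TDR_O N f ↔ (N : ℕ∞) ≤ f.order := by
  constructor
  · intro h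
    exact MvPowerSeries.nat_le_order h
  · intro h α hα
    exact MvPowerSeries.coeff_of_lt_order (lt_of_lt_of_le (by exact_mod_cast hα) h)

theorem TDR_O_mul {k : Type u} [Field k] {n : ℕ} {N M : ℕ} {f g : MvPowerSeries (Fin n) k}
    (hf : TDR_O N f) (hg : TDR_O M g) : TDR_O (N + M) (f * g) := by
  rw [TDR_O_iff] at hf hg ⊢
  push_cast
  exact (add_le_add hf hg).trans MvPowerSeries.le_order_mul

theorem TDR_O_add {k : Type u} [Field k] {n : ℕ} {N : ℕ} {f g : MvPowerSeries (Fin n) k}
    (hf : TDR_O N f) (hg : TDR_O N g) : TDR_O N (f + g) := by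
  intro α hα
  rw [map_add, hf α hα, hg α hα, add_zero]

theorem TDR_O_zero {k : Type u} [Field k] {n : ℕ} (f : MvPowerSeries (Fin n) k) : TDR_O 0 f :=
  fun _ hα => absurd hα (Nat.not_lt_zero _)

theorem TDR_coe {k A : Type u} [Field k] [CommRing A] [Algebra k A] {n : ℕ} (y : Fin n → A)
    (φ : A →ₐ[k] MvPowerSeries (Fin n) k) (hy : ∀ i, φ (y i) = MvPowerSeries.X i)
    (f : MvPolynomial (Fin n) k) :
    φ (MvPolynomial.aeval y f) = (f : MvPowerSeries (Fin n) k) := by
  induction f using MvPolynomial.induction_on with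
  | C c =>
    rw [MvPolynomial.aeval_C, AlgHom.commutes, MvPolynomial.coe_C]
    rfl
  | add p q hp hq => rw [map_add, map_add, hp, hq, MvPolynomial.coe_add]
  | mul_X p i hp => rw [map_mul, map_mul, hp, MvPolynomial.aeval_X, hy, MvPolynomial.coe_mul,
      MvPolynomial.coe_X]

theorem TDR : TDR_stmt.{u} := by
  classical
  intro k A K _ _ _ _ _ _ _ _ _ n m _ y φ D hT hD i a b s hs hab
  obtain ⟨hTy, hTN⟩ := hT
  obtain ⟨hDy, hDA⟩ := hD
  have hinj : Function.Injective (algebraMap A K) := IsFractionRing.injective A K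
  have hm1 : (1 : A) ∉ m := (Ideal.ne_top_iff_one m).1 (Ideal.IsMaximal.ne_top inferInstance)
  have hmul : ∀ x y : A, x ∉ m → y ∉ m → x * y ∉ m := by
    intro x y hx hy hxy
    rcases (Ideal.IsMaximal.isPrime (I := m) inferInstance).mem_or_mem hxy with h | h
    · exact hx h
    · exact hy h
  have hne : ∀ s : A, s ∉ m → algebraMap A K s ≠ 0 := by
    intro s hs h0
    have : s = 0 := hinj (by rw [h0, map_zero])
    exact hs (by rw [this]; exact m.zero_mem)
  have hcc : ∀ s : A, s ∉ m → MvPowerSeries.constantCoeff (φ s) ≠ 0 := by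
    intro s hs h0
    apply hs
    have := (hTN 1 s).2 (by
      intro α hα
      have hα0 : α = 0 := by
        have : α.degree = 0 := by omega
        exact (Finsupp.degree_eq_zero_iff α).1 this
      rw [hα0]
      exact h0)
    rwa [pow_one] at this
  have hφne : ∀ s : A, s ∉ m → φ s ≠ 0 := by
    intro s hs h0
    apply hcc s hs
    rw [h0, map_zero]
  choose bb ss hss hbs using hDA i
  obtain ⟨δ, hδ⟩ : ∃ δ : A → MvPowerSeries (Fin n) k, ∀ a, δ a = φ (bb a) * (φ (ss a))⁻¹ :=
    ⟨_, fun _ => rfl⟩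
  have hδ1 : ∀ a, φ (bb a) = φ (ss a) * δ a := by
    intro a
    rw [hδ, mul_comm (φ (bb a)), ← mul_assoc, MvPowerSeries.mul_inv_cancel _ (hcc _ (hss a)),
      one_mul]
  have key : ∀ a b s : A, s ∉ m → D i (algebraMap A K a) = algebraMap A K b / algebraMap A K s →
      φ b = φ s * δ a := by
    intro a b s hs hab
    have h1 : algebraMap A K b / algebraMap A K s =
        algebraMap A K (bb a) / algebraMap A K (ss a) := by rw [← hab, ← hbs a]
    rw [div_eq_div_iff (hne s hs) (hne _ (hss a)), ← map_mul, ← map_mul] at h1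
    have h2 : b * ss a = bb a * s := hinj h1
    have h3 : φ b * φ (ss a) = φ (bb a) * φ s := by rw [← map_mul, h2, map_mul]
    rw [hδ1 a] at h3
    apply mul_right_cancel₀ (hφne _ (hss a))
    rw [h3]
    ring
  have uniq : ∀ (a b s : A) (g : MvPowerSeries (Fin n) k), s ∉ m →
      D i (algebraMap A K a) = algebraMap A K b / algebraMap A K s → φ b = φ s * g → δ a = g := by
    intro a b s g hs hab hg
    have := key a b s hs hab
    rw [hg] at this
    exact (mul_left_cancel₀ (hφne s hs) this).symm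
  have hadd : ∀ a a', δ (a + a') = δ a + δ a' := by
    intro a a'
    apply uniq (a + a') (bb a * ss a' + bb a' * ss a) (ss a * ss a') _ (hmul _ _ (hss a) (hss a'))
    · rw [map_add, map_add, hbs a, hbs a', map_add, map_mul, map_mul, map_mul,
        div_add_div _ _ (hne _ (hss a)) (hne _ (hss a'))]
      congr 1
      ring
    · rw [map_add, map_mul, map_mul, map_mul, hδ1 a, hδ1 a']
      ring
  have hlei : ∀ a a', δ (a * a') = φ a * δ a' + φ a' * δ a := by
    intro a a'
    apply uniq (a * a') (a * bb a' * ss a + a' * bb a * ss a') (ss a * ss a') _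
      (hmul _ _ (hss a) (hss a'))
    · rw [map_mul, Derivation.leibniz, hbs a, hbs a', smul_eq_mul, smul_eq_mul]
      simp only [map_add, map_mul]
      have e1 := hne _ (hss a)
      have e2 := hne _ (hss a')
      field_simp
    · rw [map_add, map_mul, map_mul, map_mul, map_mul, map_mul, hδ1 a, hδ1 a']
      ring
  have hconst : ∀ c : k, δ (algebraMap k A c) = 0 := by
    intro c
    apply uniq _ 0 1 _ hm1
    · rw [← IsScalarTower.algebraMap_apply, Derivation.map_algebraMap, map_zero, zero_div]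
    · rw [map_zero, mul_zero]
  have hyj : ∀ j, δ (y j) = MvPowerSeries.pderiv k i (MvPowerSeries.X j) := by
    intro j
    apply uniq _ (if i = j then 1 else 0) 1 _ hm1
    · rw [hDy]
      split_ifs <;> simp
    · by_cases hij : i = j
      · subst hij
        rw [if_pos rfl, map_one, one_mul, MvPowerSeries.pderiv_X_self]
      · rw [if_neg hij, map_zero, map_one, one_mul, MvPowerSeries.pderiv_X_of_ne (Ne.symm hij)]
  -- the difference
  obtain ⟨Δ, hΔ⟩ : ∃ Δ : A → MvPowerSeries (Fin n) k,
      ∀ a, Δ a = δ a - MvPowerSeries.pderiv k i (φ a) := ⟨_, fun _ => rfl⟩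
  have Dadd : ∀ a a', Δ (a + a') = Δ a + Δ a' := by
    intro a a'
    rw [hΔ, hΔ, hΔ, hadd, map_add, map_add]
    ring
  have Dmul : ∀ a a', Δ (a * a') = φ a * Δ a' + φ a' * Δ a := by
    intro a a'
    rw [hΔ, hΔ, hΔ, hlei, map_mul, Derivation.leibniz, smul_eq_mul, smul_eq_mul]
    ring
  have Dy : ∀ j, Δ (y j) = 0 := by
    intro j
    rw [hΔ, hyj, hTy, sub_self]
  have Dpoly : ∀ f : MvPolynomial (Fin n) k, Δ (MvPolynomial.aeval y f) = 0 := by
    intro f
    induction f using MvPolynomial.induction_on with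
    | C c =>
      rw [MvPolynomial.aeval_C, hΔ, hconst, AlgHom.commutes, Derivation.map_algebraMap, sub_zero]
    | add p q hp hq => rw [map_add, Dadd, hp, hq, add_zero]
    | mul_X p j hp => rw [map_mul, Dmul, hp, MvPolynomial.aeval_X, Dy, mul_zero, mul_zero, add_zero]
  have Dpow : ∀ (N : ℕ) (a : A), a ∈ m ^ (N + 1) → TDR_O N (Δ a) := by
    intro N
    induction N with
    | zero => intro a _; exact TDR_O_zero _
    | succ N ih =>
      intro a ha
      rw [pow_succ] at ha
      refine Submodule.mul_induction_on ha ?_ ?_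
      · intro x hx c hc
        rw [Dmul]
        apply TDR_O_add
        · exact TDR_O_mul (N := N + 1) (M := 0) ((hTN (N + 1) x).1 hx) (TDR_O_zero _)
        · have h1 : TDR_O 1 (φ c) := (hTN 1 c).1 (by rwa [pow_one])
          have := TDR_O_mul h1 (ih x hx)
          rwa [add_comm] at this
      · intro x z hx hz
        rw [Dadd]
        exact TDR_O_add hx hz
  have Dzero : ∀ a, Δ a = 0 := by
    intro a
    ext α
    obtain ⟨N, hN⟩ : ∃ N, N = α.degree + 1 := ⟨_, rfl⟩
    obtain ⟨f, hf⟩ : ∃ f : MvPolynomial (Fin n) k, ∀ β : Fin n →₀ ℕ, β.degree < N + 1 →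
        f.coeff β = MvPowerSeries.coeff β (φ a) := by
      refine ⟨MvPowerSeries.trunc' k (Finsupp.equivFunOnFinite.symm fun _ => N + 1) (φ a), ?_⟩
      intro β hβ
      rw [MvPowerSeries.coeff_trunc', if_pos]
      intro j
      have h1 : β j ≤ β.degree := Finsupp.le_degree j β
      show β j ≤ N + 1
      omega
    have ha' : a - MvPolynomial.aeval y f ∈ m ^ (N + 1) := by
      rw [hTN]
      intro β hβ
      rw [map_sub, TDR_coe y φ hTy, map_sub, MvPolynomial.coeff_coe, hf β hβ, sub_self]
    have h2 : Δ a = Δ (MvPolynomial.aeval y f) + Δ (a - MvPolynomial.aeval y f) := by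
      rw [← Dadd, add_sub_cancel]
    rw [h2, Dpoly, zero_add, map_zero]
    exact Dpow N _ ha' α (by omega)
  have h1 := key a b s hs hab
  have h2 := Dzero a
  rw [hΔ, sub_eq_zero] at h2
  rw [h1, h2]

end Pool.Agent.QS
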