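import Pool.Agent.helper4.QS.Spec

set_option autoImplicit false

open scoped BigOperators ComplexOrder ComplexConjugate Topology

namespace Pool.Agent.QS

open Pool.Agent.helper86.CM Filter

/-- `Σ S_i† S_i` -/
noncomputable def EIG_Q {H : Type} [NormedAddCommGroup H] [InnerProductSpace ℂ H]
    [FiniteDimensional ℂ H] {m : ℕ} (S : Fin m → (H →ₗ[ℂ] H)) : H →ₗ[ℂ] H :=
  ∑ i, (LinearMap.adjoint (S i)) ∘ₗ (S i)

theorem EIG_Q_apply {H : Type} [NormedAddCommGroup H] [InnerProductSpace ℂ H]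
    [FiniteDimensional ℂ H] {m : ℕ} (S : Fin m → (H →ₗ[ℂ] H)) (v : H) :
    EIG_Q S v = ∑ i, LinearMap.adjoint (S i) (S i v) := by
  unfold EIG_Q
  rw [LinearMap.sum_apply]
  rfl

theorem EIG_inner {H : Type} [NormedAddCommGroup H] [InnerProductSpace ℂ H]
    [FiniteDimensional ℂ H] {m : ℕ} (S : Fin m → (H →ₗ[ℂ] H)) (v w : H) :
    inner ℂ (EIG_Q S v) w = ∑ i, inner ℂ (S i v) (S i w) := by
  rw [EIG_Q_apply, sum_inner]
  refine Finset.sum_congr rfl fun i _ => ?_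
  rw [LinearMap.adjoint_inner_left]

theorem EIG_inner' {H : Type} [NormedAddCommGroup H] [InnerProductSpace ℂ H]
    [FiniteDimensional ℂ H] {m : ℕ} (S : Fin m → (H →ₗ[ℂ] H)) (v w : H) :
    inner ℂ v (EIG_Q S w) = ∑ i, inner ℂ (S i v) (S i w) := by
  rw [EIG_Q_apply, inner_sum]
  refine Finset.sum_congr rfl fun i _ => ?_
  rw [LinearMap.adjoint_inner_right]

theorem EIG_norm {H : Type} [NormedAddCommGroup H] [InnerProductSpace ℂ H]
    [FiniteDimensional ℂ H] {m : ℕ} (S : Fin m → (H →ₗ[ℂ] H)) (v : H) :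
    inner ℂ (EIG_Q S v) v = ((∑ i, ‖S i v‖ ^ 2 : ℝ) : ℂ) := by
  rw [EIG_inner, Complex.ofReal_sum]
  refine Finset.sum_congr rfl fun i _ => ?_
  rw [inner_self_eq_norm_sq_to_K]
  push_cast
  rfl

theorem EIG_symm {H : Type} [NormedAddCommGroup H] [InnerProductSpace ℂ H]
    [FiniteDimensional ℂ H] {m : ℕ} (S : Fin m → (H →ₗ[ℂ] H)) :
    (EIG_Q S).IsSymmetric := by
  intro v w
  rw [EIG_inner, EIG_inner']

theorem EIG_comm {H : Type} [NormedAddCommGroup H] [InnerProductSpace ℂ H]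
    [FiniteDimensional ℂ H] (U : H ≃ₗᵢ[ℂ] H) {m : ℕ} (S : Fin m → (H →ₗ[ℂ] H))
    (hc : ∀ i v, S i (U v) = U (S i v)) (v : H) : EIG_Q S (U v) = U (EIG_Q S v) := by
  refine ext_inner_right ℂ fun w => ?_
  have hinv : ∀ i, S i (U.symm w) = U.symm (S i w) := by
    intro i
    apply U.injective
    rw [← hc, U.apply_symm_apply, U.apply_symm_apply]
  have h1 : inner ℂ (U (EIG_Q S v)) w = inner ℂ (EIG_Q S v) (U.symm w) := by
    rw [← U.inner_map_map (EIG_Q S v) (U.symm w), U.apply_symm_apply]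
  rw [h1, EIG_inner, EIG_inner]
  refine Finset.sum_congr rfl fun i _ => ?_
  rw [hc, hinv, ← U.inner_map_map (S i v) (U.symm (S i w)), U.apply_symm_apply]

theorem EIG : EIG_stmt := by
  intro H _ _ _ U m S hc p w hw ε hε
  classical
  have hnon : Nontrivial H := by
    by_contra hcon
    rw [not_nontrivial_iff_subsingleton] at hcon
    have : ∑ l, ‖w l‖ ^ 2 = 0 := by
      refine Finset.sum_eq_zero fun l _ => ?_
      rw [Subsingleton.elim (w l) 0, norm_zero]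
      norm_num
    rw [this] at hw
    exact zero_ne_one hw
  set μ : ℝ := ⨅ x : { x : H // x ≠ 0 }, RCLike.re (inner ℂ (EIG_Q S x) (x : H)) / ‖(x : H)‖ ^ 2
    with hμ
  have hev : Module.End.HasEigenvalue (EIG_Q S) (μ : ℂ) :=
    (EIG_symm S).hasEigenvalue_iInf_of_finiteDimensional
  have hre : ∀ v : H, RCLike.re (inner ℂ (EIG_Q S v) v) = ∑ i, ‖S i v‖ ^ 2 := by
    intro v
    rw [EIG_norm]
    exact Complex.ofReal_re _
  have hle : ∀ v : H, μ * ‖v‖ ^ 2 ≤ ∑ i, ‖S i v‖ ^ 2 := by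
    intro v
    by_cases hv : v = 0
    · rw [hv, norm_zero]
      simp
    · have hb : BddBelow (Set.range fun x : { x : H // x ≠ 0 } =>
          RCLike.re (inner ℂ (EIG_Q S x) (x : H)) / ‖(x : H)‖ ^ 2) := by
        refine ⟨0, ?_⟩
        rintro _ ⟨x, rfl⟩
        show 0 ≤ RCLike.re (inner ℂ (EIG_Q S x) (x : H)) / ‖(x : H)‖ ^ 2
        rw [hre]
        exact div_nonneg (Finset.sum_nonneg fun i _ => sq_nonneg _) (sq_nonneg _)
      have h1 : μ ≤ RCLike.re (inner ℂ (EIG_Q S v) v) / ‖v‖ ^ 2 := ciInf_le hb ⟨v, hv⟩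
      rw [hre] at h1
      have hpos : 0 < ‖v‖ ^ 2 := pow_pos (norm_pos_iff.2 hv) 2
      exact (le_div_iff₀ hpos).1 h1
  have hμε : μ ≤ ε := by
    have h1 : ∑ l, μ * ‖w l‖ ^ 2 ≤ ∑ l, ∑ i, ‖S i (w l)‖ ^ 2 :=
      Finset.sum_le_sum fun l _ => hle (w l)
    rw [← Finset.mul_sum, hw, mul_one] at h1
    exact h1.trans hε
  -- the eigenspace and the restriction of `U`
  set E := Module.End.eigenspace (EIG_Q S) (μ : ℂ) with hE
  have hEne : E ≠ ⊥ := hev
  have hEnon : Nontrivial E := Submodule.nontrivial_iff_ne_bot.2 hEne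
  have hmap : ∀ v ∈ E, (U : H →ₗ[ℂ] H) v ∈ E := by
    intro v hv
    rw [hE, Module.End.mem_eigenspace_iff] at hv ⊢
    show EIG_Q S (U v) = (μ : ℂ) • U v
    rw [EIG_comm U S hc, hv, map_smul]
  obtain ⟨c, hcE⟩ := Module.End.exists_eigenvalue ((U : H →ₗ[ℂ] H).restrict hmap)
  obtain ⟨x, hx⟩ := hcE.exists_hasEigenvector
  have hx0 : (x : H) ≠ 0 := fun h => hx.2 (Subtype.ext h)
  have hUx : U (x : H) = c • (x : H) := by
    have h1 := hx.apply_eq_smul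
    have h2 := congrArg (fun y : E => (y : H)) h1
    exact h2
  have hQx : EIG_Q S (x : H) = (μ : ℂ) • (x : H) :=
    Module.End.mem_eigenspace_iff.1 x.2
  have hnx : ‖(x : H)‖ ≠ 0 := norm_ne_zero_iff.2 hx0
  refine ⟨((‖(x : H)‖⁻¹ : ℝ) : ℂ) • (x : H), c, ?_, ?_, ?_⟩
  · rw [norm_smul, Complex.norm_real, norm_inv, norm_norm, inv_mul_cancel₀ hnx]
  · rw [map_smul, hUx, smul_comm]
  · set ψ : H := ((‖(x : H)‖⁻¹ : ℝ) : ℂ) • (x : H) with hψ
    have hψ1 : ‖ψ‖ = 1 := by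
      rw [hψ, norm_smul, Complex.norm_real, norm_inv, norm_norm, inv_mul_cancel₀ hnx]
    have hQψ : EIG_Q S ψ = (μ : ℂ) • ψ := by
      rw [hψ, map_smul, hQx, smul_comm]
    have h1 := EIG_norm S ψ
    rw [hQψ, inner_smul_left, inner_self_eq_norm_sq_to_K, hψ1, Complex.conj_ofReal] at h1
    have h2 : (μ : ℂ) = ((∑ i, ‖S i ψ‖ ^ 2 : ℝ) : ℂ) := by
      rw [← h1]
      simp
    have h3 : μ = ∑ i, ‖S i ψ‖ ^ 2 := Complex.ofReal_injective h2
    rw [← h3]
    exact hμε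

end Pool.Agent.QS
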