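import Pool.Agent.helper4.QS.Spec

set_option autoImplicit false

open scoped BigOperators ComplexOrder ComplexConjugate Topology

namespace Pool.Agent.QS

open Pool.Agent.helper86.CM Filter

theorem KP_nonneg (a : ℕ → ℝ) (h0 : ∀ d, 0 ≤ a d) (m : ℕ) : 0 ≤ ∏ d ∈ Finset.Icc 1 m, a d :=
  Finset.prod_nonneg fun d _ => h0 d

theorem KP_le_one (a : ℕ → ℝ) (h0 : ∀ d, 0 ≤ a d) (h1 : ∀ d, a d ≤ 1) (m : ℕ) :
    ∏ d ∈ Finset.Icc 1 m, a d ≤ 1 :=
  Finset.prod_le_one (fun d _ => h0 d) fun d _ => h1 d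

theorem KP_lim (a : ℕ → ℝ) (h0 : ∀ d, 0 ≤ a d) (h1 : ∀ d, a d ≤ 1) :
    ∃ P : ℝ, Tendsto (fun m => ∏ d ∈ Finset.Icc 1 m, a d) atTop (𝓝 P) := by
  have hanti : Antitone fun m => ∏ d ∈ Finset.Icc 1 m, a d := by
    refine antitone_nat_of_succ_le fun m => ?_
    rw [Finset.prod_Icc_succ_top (by omega : 1 ≤ m + 1)]
    exact mul_le_of_le_one_right (KP_nonneg a h0 m) (h1 _)
  refine ⟨_, tendsto_atTop_ciInf hanti ⟨0, ?_⟩⟩
  rintro _ ⟨m, rfl⟩
  exact KP_nonneg a h0 m

theorem KP_geo (x : ℝ) (hx0 : 0 < x) (hx1 : x < 1) (m : ℕ) :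
    ∑ d ∈ Finset.Icc 1 m, x ^ d ≤ (1 - x)⁻¹ := by
  have h : ∀ m : ℕ, (∑ d ∈ Finset.Icc 1 m, x ^ d) * (1 - x) = x - x ^ (m + 1) := by
    intro m
    induction m with
    | zero =>
      simp
    | succ m ih =>
      rw [Finset.sum_Icc_succ_top (by omega : 1 ≤ m + 1), add_mul, ih]
      ring
  have h1x : 0 < 1 - x := by linarith
  rw [← div_eq_iff_mul_eq h1x.ne' |>.2 (h m), ← one_div]
  have : 0 < x ^ (m + 1) := pow_pos hx0 _
  rw [div_le_div_iff_of_pos_right h1x]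
  linarith

theorem KP_low (a : ℕ → ℝ) (K x : ℝ) (hx0 : 0 < x) (hx1 : x < 1) (hK : 0 ≤ K)
    (h0 : ∀ d, 1 / 2 ≤ a d) (h1 : ∀ d, a d ≤ 1) (h : ∀ d, 1 - a d ≤ K * x ^ d) (m : ℕ) :
    Real.exp (-2 * K * (1 - x)⁻¹) ≤ ∏ d ∈ Finset.Icc 1 m, a d := by
  have key : ∀ m : ℕ, Real.exp (-2 * K * ∑ d ∈ Finset.Icc 1 m, x ^ d) ≤
      ∏ d ∈ Finset.Icc 1 m, a d := by
    intro m
    induction m with
    | zero => simp
    | succ m ih =>
      rw [Finset.sum_Icc_succ_top (by omega : 1 ≤ m + 1),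
        Finset.prod_Icc_succ_top (by omega : 1 ≤ m + 1), mul_add, Real.exp_add]
      have ha := h0 (m + 1)
      have ha1 := h1 (m + 1)
      have hapos : 0 < a (m + 1) := by linarith
      refine mul_le_mul ih ?_ (Real.exp_pos _).le
        (KP_nonneg a (fun d => le_trans (by norm_num) (h0 d)) m)
      have hlog := Real.one_sub_inv_le_log_of_pos hapos
      rw [← Real.le_log_iff_exp_le hapos]
      refine le_trans ?_ hlog
      have hinv : (a (m + 1))⁻¹ ≤ 1 + 2 * (1 - a (m + 1)) := by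
        rw [inv_eq_one_div, div_le_iff₀ hapos]
        nlinarith
      have := h (m + 1)
      linarith
  refine le_trans (Real.exp_le_exp.2 ?_) (key m)
  have := KP_geo x hx0 hx1 m
  nlinarith

theorem KP_diff (a b : ℕ → ℝ) (ha0 : ∀ d, 0 ≤ a d) (ha1 : ∀ d, a d ≤ 1) (hb0 : ∀ d, 0 ≤ b d)
    (hb1 : ∀ d, b d ≤ 1) (m : ℕ) :
    |∏ d ∈ Finset.Icc 1 m, a d - ∏ d ∈ Finset.Icc 1 m, b d| ≤
      ∑ d ∈ Finset.Icc 1 m, |a d - b d| := by
  induction m with
  | zero => simp
  | succ m ih =>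
    rw [Finset.prod_Icc_succ_top (by omega : 1 ≤ m + 1),
      Finset.prod_Icc_succ_top (by omega : 1 ≤ m + 1),
      Finset.sum_Icc_succ_top (by omega : 1 ≤ m + 1)]
    have e : (∏ d ∈ Finset.Icc 1 m, a d) * a (m + 1) - (∏ d ∈ Finset.Icc 1 m, b d) * b (m + 1) =
        (∏ d ∈ Finset.Icc 1 m, a d - ∏ d ∈ Finset.Icc 1 m, b d) * a (m + 1) +
          (∏ d ∈ Finset.Icc 1 m, b d) * (a (m + 1) - b (m + 1)) := by ring
    rw [e]
    refine (abs_add_le _ _).trans (add_le_add ?_ ?_)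
    · rw [abs_mul, abs_of_nonneg (ha0 (m + 1))]
      exact (mul_le_of_le_one_right (abs_nonneg _) (ha1 _)).trans ih
    · rw [abs_mul, abs_of_nonneg (KP_nonneg b hb0 m)]
      exact mul_le_of_le_one_left (abs_nonneg _) (KP_le_one b hb0 hb1 m)

theorem KP_cos_range (θ : ℝ) :
    1 / 2 ≤ 3 / 4 + 1 / 4 * Real.cos θ ∧ 3 / 4 + 1 / 4 * Real.cos θ ≤ 1 := by
  have h1 := Real.neg_one_le_cos θ
  have h2 := Real.cos_le_one θ
  constructor <;> linarith

theorem KP : KP_stmt := by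
  intro q x s hx0 hx1 hs
  have hk : ∀ d, 1 / 2 ≤ kap q x s d ∧ kap q x s d ≤ 1 := fun d => KP_cos_range _
  have hk2 : ∀ e d, 1 / 2 ≤ kap2 q x s e d ∧ kap2 q x s e d ≤ 1 := fun e d => KP_cos_range _
  have hk0 : ∀ d, 0 ≤ kap q x s d := fun d => le_trans (by norm_num) (hk d).1
  have hk20 : ∀ e d, 0 ≤ kap2 q x s e d := fun e d => le_trans (by norm_num) (hk2 e d).1
  obtain ⟨P, hP⟩ := KP_lim (kap q x s) hk0 fun d => (hk d).2
  have hQ : ∀ e, ∃ Q : ℝ, Tendsto (fun m => ∏ d ∈ Finset.Icc 1 m, kap2 q x s e d) atTop (𝓝 Q) :=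
    fun e => KP_lim (kap2 q x s e) (hk20 e) fun d => (hk2 e d).2
  choose Q hQ using hQ
  refine ⟨P, Q, ?_, hP, hQ, ?_⟩
  · have hlow := KP_low (kap q x s) ((2 * Real.pi * q) ^ 2 / 8) x hx0 hx1 (by positivity)
      (fun d => (hk d).1) (fun d => (hk d).2) (by
        intro d
        have hc := Real.one_sub_sq_div_two_le_cos (x := 2 * Real.pi * q * x ^ (s * d))
        have h2 : (x ^ (s * d)) ^ 2 ≤ x ^ d := by
          rw [← pow_mul]
          refine pow_le_pow_of_le_one hx0.le hx1.le ?_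
          calc d = 1 * d * 1 := by ring
            _ ≤ s * d * 2 := Nat.mul_le_mul (Nat.mul_le_mul_right d hs) (by norm_num)
        have h3 : (2 * Real.pi * q * x ^ (s * d)) ^ 2 ≤ (2 * Real.pi * q) ^ 2 * x ^ d := by
          rw [mul_pow]
          exact mul_le_mul_of_nonneg_left h2 (sq_nonneg _)
        unfold kap
        linarith)
    exact lt_of_lt_of_le (Real.exp_pos _) (ge_of_tendsto' hP hlow)
  · have hb : ∀ e : ℕ, |Q e - P| ≤ (Real.pi * |q| / 2 * (1 - x)⁻¹) * x ^ e := by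
      intro e
      have hlim : Tendsto (fun m => |∏ d ∈ Finset.Icc 1 m, kap2 q x s e d -
          ∏ d ∈ Finset.Icc 1 m, kap q x s d|) atTop (𝓝 |Q e - P|) := ((hQ e).sub hP).abs
      refine le_of_tendsto' hlim fun m => ?_
      refine (KP_diff _ _ (hk20 e) (fun d => (hk2 e d).2) hk0 (fun d => (hk d).2) m).trans ?_
      have hterm : ∀ d ∈ Finset.Icc 1 m, |kap2 q x s e d - kap q x s d| ≤
          (Real.pi * |q| / 2 * x ^ e) * x ^ d := by
        intro d _
        have hc : |Real.cos (2 * Real.pi * q * (x ^ (s * d) - x ^ (s * (d + e)))) -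
            Real.cos (2 * Real.pi * q * x ^ (s * d))| ≤
            |2 * Real.pi * q * (x ^ (s * d) - x ^ (s * (d + e))) - 2 * Real.pi * q * x ^ (s * d)| := by
          have := Real.lipschitzWith_cos.dist_le_mul
            (2 * Real.pi * q * (x ^ (s * d) - x ^ (s * (d + e)))) (2 * Real.pi * q * x ^ (s * d))
          rw [Real.dist_eq, Real.dist_eq, NNReal.coe_one, one_mul] at this
          exact this
        have h2 : |2 * Real.pi * q * (x ^ (s * d) - x ^ (s * (d + e))) -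
            2 * Real.pi * q * x ^ (s * d)| = 2 * Real.pi * |q| * x ^ (s * (d + e)) := by
          have e1 : 2 * Real.pi * q * (x ^ (s * d) - x ^ (s * (d + e))) -
            2 * Real.pi * q * x ^ (s * d) = -(2 * Real.pi * q * x ^ (s * (d + e))) := by ring
          rw [e1, abs_neg, abs_mul, abs_mul, abs_of_pos (pow_pos hx0 _),
            abs_of_pos (by positivity : (0 : ℝ) < 2 * Real.pi)]
        have h3 : x ^ (s * (d + e)) ≤ x ^ e * x ^ d := by
          rw [← pow_add]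
          refine pow_le_pow_of_le_one hx0.le hx1.le ?_
          calc e + d = 1 * (d + e) := by ring
            _ ≤ s * (d + e) := Nat.mul_le_mul_right _ hs
        have e2 : kap2 q x s e d - kap q x s d =
            1 / 4 * (Real.cos (2 * Real.pi * q * (x ^ (s * d) - x ^ (s * (d + e)))) -
            Real.cos (2 * Real.pi * q * x ^ (s * d))) := by
          unfold kap kap2
          ring
        rw [e2, abs_mul, abs_of_pos (by norm_num : (0 : ℝ) < 1 / 4)]
        have h4 : 2 * Real.pi * |q| * x ^ (s * (d + e)) ≤ 2 * Real.pi * |q| * (x ^ e * x ^ d) :=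
          mul_le_mul_of_nonneg_left h3 (by positivity)
        calc 1 / 4 * |Real.cos (2 * Real.pi * q * (x ^ (s * d) - x ^ (s * (d + e)))) -
            Real.cos (2 * Real.pi * q * x ^ (s * d))|
            ≤ 1 / 4 * (2 * Real.pi * |q| * (x ^ e * x ^ d)) :=
              mul_le_mul_of_nonneg_left (hc.trans (h2.le.trans h4)) (by norm_num)
          _ = Real.pi * |q| / 2 * x ^ e * x ^ d := by ring
      refine (Finset.sum_le_sum hterm).trans ?_
      rw [← Finset.mul_sum]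
      have hg := KP_geo x hx0 hx1 m
      have hnn : 0 ≤ Real.pi * |q| / 2 * x ^ e := by positivity
      calc Real.pi * |q| / 2 * x ^ e * ∑ d ∈ Finset.Icc 1 m, x ^ d
          ≤ Real.pi * |q| / 2 * x ^ e * (1 - x)⁻¹ := mul_le_mul_of_nonneg_left hg hnn
        _ = Real.pi * |q| / 2 * (1 - x)⁻¹ * x ^ e := by ring
    have hlim0 : Tendsto (fun e : ℕ => (Real.pi * |q| / 2 * (1 - x)⁻¹) * x ^ e) atTop (𝓝 0) := by
      have := (tendsto_pow_atTop_nhds_zero_of_lt_one hx0.le hx1).const_mul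
        (Real.pi * |q| / 2 * (1 - x)⁻¹)
      rw [mul_zero] at this
      exact this
    rw [tendsto_iff_dist_tendsto_zero]
    exact squeeze_zero (fun e => dist_nonneg) (fun e => (Real.dist_eq (Q e) P).le.trans (hb e)) hlim0

end Pool.Agent.QS
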