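import Pool.Agent.helper4.QS.Spec

set_option autoImplicit false

open scoped BigOperators ComplexOrder ComplexConjugate Topology

namespace Pool.Agent.QS

open Pool.Agent.helper86.CM Filter

theorem UN1 (hQF : QF0_stmt) : UN1_stmt := by
  intro t ht N p w y z hN hp hpN hrel hw hw2 hy2
  have hid : N ^ 2 * (z ^ 2 + t * z * y + y ^ 2) = w ^ 2 + (t * N - 2 * p) * (w * y) + y ^ 2 := by
    have hz : N * z = w - p * y := by rw [hw]; ring
    have e1 : N ^ 2 * (z ^ 2 + t * z * y + y ^ 2) =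
        (N * z) ^ 2 + t * N * (N * z) * y + N ^ 2 * y ^ 2 := by ring
    rw [e1, hz]
    have e2 : (w - p * y) ^ 2 + t * N * (w - p * y) * y + N ^ 2 * y ^ 2 =
        w ^ 2 + (t * N - 2 * p) * (w * y) + y ^ 2 * (N ^ 2 - t * N * p + p ^ 2) := by ring
    rw [e2, hrel, mul_one]
  have hc0 : 0 ≤ t * N - 2 * p := by nlinarith
  have hcN : t * N - 2 * p ≤ t * N := by linarith
  have hwy1 : 4 * t * (w * y) ≤ N := by nlinarith [sq_nonneg (w - y)]
  have hwy2 : -N ≤ 4 * t * (w * y) := by nlinarith [sq_nonneg (w + y)]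
  have hw0 : 0 ≤ w ^ 2 := sq_nonneg w
  have hy0 : 0 ≤ y ^ 2 := sq_nonneg y
  set g := z ^ 2 + t * z * y + y ^ 2 with hg
  have hmul : 4 * t * (N ^ 2 * g) =
      4 * t * w ^ 2 + (t * N - 2 * p) * (4 * t * (w * y)) + 4 * t * y ^ 2 := by
    rw [hid]
    ring
  have hup1 : (t * N - 2 * p) * (4 * t * (w * y)) ≤ t * N * N := by
    calc (t * N - 2 * p) * (4 * t * (w * y)) ≤ (t * N - 2 * p) * N :=
          mul_le_mul_of_nonneg_left hwy1 hc0
      _ ≤ t * N * N := mul_le_mul_of_nonneg_right hcN hN.le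
  have hlo1 : -(t * N * N) ≤ (t * N - 2 * p) * (4 * t * (w * y)) := by
    have h1 : (t * N - 2 * p) * (-N) ≤ (t * N - 2 * p) * (4 * t * (w * y)) :=
      mul_le_mul_of_nonneg_left hwy2 hc0
    have h2 : (t * N - 2 * p) * N ≤ t * N * N := mul_le_mul_of_nonneg_right hcN hN.le
    linarith
  have hNN : N ≤ N * N := by nlinarith
  have htN : 0 < t * (N * N) := mul_pos (by linarith) (mul_pos hN hN)
  have h3N : 3 * (N * N) ≤ t * (N * N) := mul_le_mul_of_nonneg_right (by linarith) (mul_pos hN hN).le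
  have hpos : 0 < 4 * (t * (N * N)) := by linarith
  have hmul2 : 4 * (t * (N * N)) * g = 4 * t * (N ^ 2 * g) := by ring
  have htw : 0 ≤ 4 * t * w ^ 2 := mul_nonneg (by linarith) hw0
  have hty : 0 ≤ 4 * t * y ^ 2 := mul_nonneg (by linarith) hy0
  have hg1 : g < 1 := by
    by_contra hcon
    have h1 : 1 ≤ g := by linarith
    have h2 : 4 * (t * (N * N)) * 1 ≤ 4 * (t * (N * N)) * g := mul_le_mul_of_nonneg_left h1 hpos.le
    have h3 : t * N * N = t * (N * N) := by ring
    rw [h3] at hup1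
    linarith
  have hg2 : -1 < g := by
    by_contra hcon
    have h1 : g ≤ -1 := by linarith
    have h2 : 4 * (t * (N * N)) * g ≤ 4 * (t * (N * N)) * (-1) :=
      mul_le_mul_of_nonneg_left h1 hpos.le
    have h3 : t * N * N = t * (N * N) := by ring
    rw [h3] at hlo1
    linarith
  have hg0 : g = 0 := by omega
  obtain ⟨hz0, hy0'⟩ := hQF t ht z y hg0
  refine ⟨?_, hy0'⟩
  rw [hw, hz0, hy0']
  ring

end Pool.Agent.QS
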